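import Pool.Agent.Z15.E.Exp

/-!
# The determinant of the exponential
-/

set_option autoImplicit false
set_option linter.unusedSectionVars false

namespace Pool.Agent.Z15.E

open Module Filter Topology Polynomial

section

variable {Ω V : Type} [Field Ω] [IsAlgClosed Ω] [AddCommGroup V] [Module Ω V]
  [FiniteDimensional Ω V]

lemma card_roots (A : Module.End Ω V) : Multiset.card A.charpoly.roots = finrank Ω V := by
  rw [← LinearMap.charpoly_natDegree A]
  exact ((IsAlgClosed.splits A.charpoly).natDegree_eq_card_roots).symm

lemma det_X_sub_C (A : Module.End Ω V) (r : Ω) :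
    LinearMap.det (aeval A (X - C r)) = (A.charpoly.roots.map fun t => (X - C r).eval t).prod := by
  have h1 := LinearMap.eval_charpoly A r
  have h2 : A.charpoly = (A.charpoly.roots.map fun a => X - C a).prod :=
    (IsAlgClosed.splits A.charpoly).eq_prod_roots_of_monic (LinearMap.charpoly_monic A)
  have h3 : eval r A.charpoly = (A.charpoly.roots.map fun a => r - a).prod := by
    conv_lhs => rw [h2]
    rw [eval_multiset_prod, Multiset.map_map]
    simp
  have h4 : aeval A (X - C r) = (-1 : Ω) • (algebraMap Ω (Module.End Ω V) r - A) := by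
    rw [map_sub, aeval_X, aeval_C, neg_one_smul, neg_sub]
  have h5 : (A.charpoly.roots.map fun t => (X - C r).eval t) =
      A.charpoly.roots.map fun t => (-1) * (r - t) := by
    refine Multiset.map_congr rfl fun t _ => ?_
    rw [eval_sub, eval_X, eval_C]
    ring
  rw [h4, LinearMap.det_smul, ← h1, h3, h5, Multiset.prod_map_mul]
  congr 1
  rw [Multiset.map_const', Multiset.prod_replicate, card_roots]

/-- The determinant of a polynomial in `A`. -/
lemma det_aeval (A : Module.End Ω V) (P : Polynomial Ω) :
    LinearMap.det (aeval A P) = (A.charpoly.roots.map fun t => P.eval t).prod := by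
  have hC : ∀ c : Ω, LinearMap.det (aeval A (C c)) =
      (A.charpoly.roots.map fun t => (C c).eval t).prod := by
    intro c
    have h1 : aeval A (C c) = c • (1 : Module.End Ω V) := by
      rw [aeval_C, Algebra.algebraMap_eq_smul_one]
    rw [h1, LinearMap.det_smul]
    simp only [eval_C]
    rw [Multiset.map_const', Multiset.prod_replicate, card_roots, map_one, mul_one]
  have hmul : ∀ P Q : Polynomial Ω, LinearMap.det (aeval A P) =
      (A.charpoly.roots.map fun t => P.eval t).prod → LinearMap.det (aeval A Q) =
      (A.charpoly.roots.map fun t => Q.eval t).prod → LinearMap.det (aeval A (P * Q)) =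
      (A.charpoly.roots.map fun t => (P * Q).eval t).prod := by
    intro P Q hP hQ
    rw [map_mul, map_mul, hP, hQ, ← Multiset.prod_map_mul]
    simp only [eval_mul]
  have hprod : ∀ s : Multiset Ω, LinearMap.det (aeval A (s.map fun a => X - C a).prod) =
      (A.charpoly.roots.map fun t => ((s.map fun a => X - C a).prod).eval t).prod := by
    intro s
    induction s using Multiset.induction_on with
    | empty =>
      rw [Multiset.map_zero, Multiset.prod_zero]
      exact hC 1
    | cons a s ih =>
      rw [Multiset.map_cons, Multiset.prod_cons]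
      exact hmul _ _ (det_X_sub_C A a) ih
  rw [(IsAlgClosed.splits P).eq_prod_roots]
  exact hmul _ _ (hC _) (hprod _)

end

section

variable {ℓ : ℕ} [Fact ℓ.Prime] {Ω V : Type} [NormedField Ω] [NormedAlgebra ℚ_[ℓ] Ω]
  [IsAlgClosed Ω] [AddCommGroup V] [Module Ω V] [FiniteDimensional Ω V]

lemma hasSum_prod_tendsto {S : Multiset Ω} {e : Ω → Ω} (P : ℕ → Ω → Ω)
    (h : ∀ t ∈ S, Tendsto (fun N => P N t) atTop (𝓝 (e t))) :
    Tendsto (fun N => (S.map (P N)).prod) atTop (𝓝 ((S.map e).prod)) := by
  induction S using Multiset.induction_on with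
  | empty => simp
  | cons a S ih =>
    simp only [Multiset.map_cons, Multiset.prod_cons]
    exact (h a (Multiset.mem_cons_self a S)).mul (ih fun t ht => h t (Multiset.mem_cons_of_mem ht))

include ℓ in
variable (ℓ) in
/-- The determinant of the exponential. -/
lemma IsExp.det {A g : Module.End Ω V} (hA : IsExp A g) :
    IsExp1 (LinearMap.trace Ω V A) (LinearMap.det g) := by
  classical
  set S := A.charpoly.roots with hS
  -- eigenvalues
  have he : ∀ t : Ω, ∃ e : Ω, t ∈ S → IsExp1 t e := by
    intro t
    by_cases ht : t ∈ S
    · rw [hS, mem_roots (LinearMap.charpoly_monic A).ne_zero] at ht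
      obtain ⟨v, hv⟩ := ((Module.End.hasEigenvalue_iff_isRoot_charpoly A t).2 ht).exists_hasEigenvector
      obtain ⟨f, hf⟩ := Module.Projective.exists_dual_ne_zero Ω hv.2
      have hpow : ∀ n : ℕ, (A ^ n) v = t ^ n • v := by
        intro n
        induction n with
        | zero => simp
        | succ n ih =>
          rw [_root_.pow_succ, Module.End.mul_apply, hv.apply_eq_smul, map_smul, ih, smul_smul,
            ← _root_.pow_succ']
      refine ⟨(f v)⁻¹ * f (g v), fun _ => ?_⟩
      have h1 := (hA (f ∘ₗ LinearMap.applyₗ v)).mul_left (f v)⁻¹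
      refine h1.congr_fun fun n => ?_
      change ((n.factorial : Ω))⁻¹ * t ^ n = (f v)⁻¹ * (((n.factorial : Ω))⁻¹ * f ((A ^ n) v))
      rw [hpow, map_smul, smul_eq_mul]
      field_simp
    · exact ⟨0, fun h => absurd h ht⟩
  choose e he using he
  -- partial sums
  let P : ℕ → Polynomial Ω := fun N => ∑ n ∈ Finset.range N, C ((n.factorial : Ω))⁻¹ * X ^ n
  have h1 : ∀ t ∈ S, Tendsto (fun N => (P N).eval t) atTop (𝓝 (e t)) := by
    intro t ht
    refine (he t ht).tendsto_sum_nat.congr fun N => ?_
    rw [eval_finsetSum]
    refine Finset.sum_congr rfl fun n _ => ?_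
    simp
  have h2 := hasSum_prod_tendsto (fun N t => (P N).eval t) h1
  let b := Module.finBasis Ω V
  have h3 : Tendsto (fun N => LinearMap.det (aeval A (P N))) atTop (𝓝 (LinearMap.det g)) := by
    have h4 : Tendsto (fun N => LinearMap.toMatrix b b (aeval A (P N))) atTop
        (𝓝 (LinearMap.toMatrix b b g)) := by
      refine tendsto_pi_nhds.2 fun i => tendsto_pi_nhds.2 fun j => ?_
      let L : Module.End Ω V →ₗ[Ω] Ω :=
        { toFun := fun B => LinearMap.toMatrix b b B i j
          map_add' := fun B B' => by rw [map_add, Matrix.add_apply]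
          map_smul' := fun c B => by rw [map_smul, Matrix.smul_apply, RingHom.id_apply] }
      refine ((hA L).tendsto_sum_nat).congr fun N => ?_
      change _ = L (aeval A (P N))
      rw [map_sum, map_sum]
      refine Finset.sum_congr rfl fun n _ => ?_
      have h6 : aeval A (C ((n.factorial : Ω))⁻¹ * X ^ n) = ((n.factorial : Ω))⁻¹ • A ^ n := by
        rw [map_mul (aeval A), aeval_C, map_pow (aeval A), aeval_X, ← Algebra.smul_def]
      rw [h6, map_smul, smul_eq_mul]
    have h5 : Continuous fun M : Matrix (Fin (finrank Ω V)) (Fin (finrank Ω V)) Ω => M.det :=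
      Continuous.matrix_det continuous_id
    have h6 := (h5.tendsto _).comp h4
    rw [LinearMap.det_toMatrix] at h6
    refine h6.congr fun N => ?_
    simp only [Function.comp_apply]
    rw [LinearMap.det_toMatrix]
  have h7 : LinearMap.det g = (S.map e).prod := by
    refine tendsto_nhds_unique h3 (h2.congr fun N => ?_)
    rw [det_aeval]
  have h8 : LinearMap.trace Ω V A = S.sum :=
    Module.End.trace_eq_sum_roots_charpoly_of_splits (IsAlgClosed.splits _)
  rw [h7, h8]
  have h9 : ∀ T : Multiset Ω, (∀ t ∈ T, IsExp1 t (e t)) → IsExp1 T.sum (T.map e).prod := by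
    intro T
    induction T using Multiset.induction_on with
    | empty =>
      intro _
      rw [Multiset.sum_zero, Multiset.map_zero, Multiset.prod_zero]
      exact IsExp1.zero
    | cons a T ih =>
      intro hT
      rw [Multiset.sum_cons, Multiset.map_cons, Multiset.prod_cons]
      exact IsExp1.add ℓ (hT a (Multiset.mem_cons_self a T))
        (ih fun t ht => hT t (Multiset.mem_cons_of_mem ht))
  exact h9 S he

end

end Pool.Agent.Z15.E
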