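import Pool.Agent.Z15.E.Exp

/-!
# Existence of exponentials and logarithms
-/

set_option autoImplicit false
set_option linter.unusedSectionVars false

namespace Pool.Agent.Z15.E

open Module Filter Topology

section

variable {ℓ : ℕ} [Fact ℓ.Prime]

/-- Legendre's formula. -/
lemma norm_fac (n : ℕ) : ‖((n.factorial : ℚ_[ℓ]))⁻¹‖ ≤ (ℓ : ℝ) ^ n := by
  have hℓ := (Fact.out : ℓ.Prime)
  have h0 : n.factorial ≠ 0 := Nat.factorial_ne_zero n
  have h0' : ((n.factorial : ℕ) : ℚ_[ℓ]) ≠ 0 := by exact_mod_cast h0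
  have h1 : ‖((n.factorial : ℕ) : ℚ_[ℓ])‖ = (ℓ : ℝ) ^ (-(padicValNat ℓ n.factorial : ℤ)) := by
    rw [Padic.norm_eq_zpow_neg_valuation h0', Padic.valuation_natCast]
  rw [norm_inv, h1, ← zpow_neg, neg_neg, zpow_natCast]
  refine pow_le_pow_right₀ (by exact_mod_cast hℓ.one_lt.le) ?_
  have h2 := sub_one_mul_padicValNat_factorial (p := ℓ) n
  have h3 : 1 ≤ ℓ - 1 := by have := hℓ.two_le; omega
  calc padicValNat ℓ n.factorial = 1 * padicValNat ℓ n.factorial := (one_mul _).symm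
    _ ≤ (ℓ - 1) * padicValNat ℓ n.factorial := Nat.mul_le_mul_right _ h3
    _ ≤ n := by rw [h2]; exact Nat.sub_le _ _

/-- The radius of convergence of the exponential series is positive. -/
lemma radius_pos (𝔸 : Type) [NormedRing 𝔸] [NormedAlgebra ℚ_[ℓ] 𝔸] :
    0 < (NormedSpace.expSeries ℚ_[ℓ] 𝔸).radius := by
  have hℓ := (Fact.out : ℓ.Prime)
  have hr : (0 : NNReal) < ((ℓ : NNReal))⁻¹ := by
    rw [inv_pos]
    exact_mod_cast hℓ.pos
  refine lt_of_lt_of_le (ENNReal.coe_pos.2 hr) ?_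
  refine FormalMultilinearSeries.le_radius_of_bound _
    (1 + ‖NormedSpace.expSeries ℚ_[ℓ] 𝔸 0‖) fun n => ?_
  have hℓ0 : (ℓ : ℝ) ≠ 0 := by exact_mod_cast hℓ.ne_zero
  rcases Nat.eq_zero_or_pos n with rfl | hn
  · rw [pow_zero, mul_one]
    linarith
  have h1 : ‖NormedSpace.expSeries ℚ_[ℓ] 𝔸 n‖ ≤ (ℓ : ℝ) ^ n := by
    rw [NormedSpace.expSeries_eq_ofScalars]
    exact (FormalMultilinearSeries.ofScalars_norm_le 𝔸 _ n hn).trans (norm_fac n)
  have h3 : (((((ℓ : NNReal))⁻¹ : NNReal)) : ℝ) = (ℓ : ℝ)⁻¹ := by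
    rw [NNReal.coe_inv, NNReal.coe_natCast]
  rw [h3]
  calc ‖NormedSpace.expSeries ℚ_[ℓ] 𝔸 n‖ * ((ℓ : ℝ)⁻¹) ^ n ≤ (ℓ : ℝ) ^ n * ((ℓ : ℝ)⁻¹) ^ n :=
        mul_le_mul_of_nonneg_right h1 (by positivity)
    _ = 1 := by
      rw [inv_pow]
      field_simp
    _ ≤ _ := by linarith [norm_nonneg (NormedSpace.expSeries ℚ_[ℓ] 𝔸 0)]

end

section

open Matrix

attribute [local instance] Matrix.linftyOpNormedRing Matrix.linftyOpNormedAlgebra

variable {ℓ : ℕ} [Fact ℓ.Prime] {Ω V : Type} [NormedField Ω] [NormedAlgebra ℚ_[ℓ] Ω]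
  [CompleteSpace Ω] [AddCommGroup V] [Module Ω V] {d : ℕ} (b : Basis (Fin d) Ω V)

lemma cts_lin (L : Module.End Ω V →ₗ[Ω] Ω) :
    Continuous fun M : Matrix (Fin d) (Fin d) Ω => L (Matrix.toLin b b M) := by
  have h1 : (fun M : Matrix (Fin d) (Fin d) Ω => L (Matrix.toLin b b M)) = fun M =>
      ∑ i, ∑ j, M i j * L (Matrix.toLin b b (Matrix.single i j 1)) := by
    funext M
    conv_lhs => rw [Matrix.matrix_eq_sum_single M]
    rw [map_sum, map_sum]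
    refine Finset.sum_congr rfl fun i _ => ?_
    rw [map_sum, map_sum]
    refine Finset.sum_congr rfl fun j _ => ?_
    have h2 : Matrix.single i j (M i j) = (M i j) • Matrix.single i j (1 : Ω) := by
      rw [Matrix.smul_single, smul_eq_mul, mul_one]
    rw [h2, map_smul, map_smul, smul_eq_mul]
  rw [h1]
  refine continuous_finsetSum _ fun i _ => continuous_finsetSum _ fun j _ =>
    Continuous.mul (continuous_id.matrix_elem i j) continuous_const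

set_option backward.isDefEq.respectTransparency false in
lemma isExp_mat (M : Matrix (Fin d) (Fin d) Ω)
    (hM : M ∈ Metric.eball (0 : Matrix (Fin d) (Fin d) Ω)
      (NormedSpace.expSeries ℚ_[ℓ] (Matrix (Fin d) (Fin d) Ω)).radius) :
    IsExp (Matrix.toLin b b M) (Matrix.toLin b b (NormedSpace.exp M)) := by
  have h1 := NormedSpace.expSeries_hasSum_exp_of_mem_ball' (𝕂 := ℚ_[ℓ]) M hM
  intro L
  have h2 := h1.map (L ∘ₗ (Matrix.toLin b b).toLinearMap) (cts_lin b L)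
  refine h2.congr_fun fun n => ?_
  have h3 : (((n.factorial : ℚ_[ℓ]))⁻¹ • M ^ n) = ((n.factorial : Ω))⁻¹ • M ^ n := by
    ext i j
    rw [Matrix.smul_apply, Matrix.smul_apply, Algebra.smul_def, smul_eq_mul, map_inv₀, map_natCast]
  change _ = L (Matrix.toLin b b (((n.factorial : ℚ_[ℓ]))⁻¹ • M ^ n))
  rw [h3, map_smul, map_smul, smul_eq_mul, Matrix.toLin_pow]

omit [CompleteSpace Ω] [NormedAlgebra ℚ_[ℓ] Ω] in
/-- Matrices with small entries are small. -/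
lemma small_mem {U : Set (Matrix (Fin d) (Fin d) Ω)} (hU : U ∈ 𝓝 (0 : Matrix (Fin d) (Fin d) Ω)) :
    ∃ δ > (0 : ℝ), ∀ M : Matrix (Fin d) (Fin d) Ω, (∀ i j, ‖M i j‖ ≤ δ) → M ∈ U := by
  obtain ⟨ε, hε, h1⟩ := Metric.mem_nhds_iff.1 hU
  refine ⟨ε / (2 * (d + 1)), by positivity, fun M hM => h1 ?_⟩
  rw [mem_ball_zero_iff, Matrix.linfty_opNorm_def]
  have h2 : ((Finset.univ : Finset (Fin d)).sup fun i => ∑ j, ‖M i j‖₊) ≤
      (d * (ε / (2 * (d + 1)))).toNNReal := by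
    refine Finset.sup_le fun i _ => ?_
    rw [← NNReal.coe_le_coe, NNReal.coe_sum, Real.coe_toNNReal _ (by positivity)]
    simp only [coe_nnnorm]
    refine (Finset.sum_le_card_nsmul _ _ (ε / (2 * (d + 1))) fun j _ => hM i j).trans ?_
    rw [Finset.card_univ, Fintype.card_fin, nsmul_eq_mul]
  have h3 : (((Finset.univ : Finset (Fin d)).sup fun i => ∑ j, ‖M i j‖₊ : NNReal) : ℝ) ≤
      d * (ε / (2 * (d + 1))) := by
    have := NNReal.coe_le_coe.2 h2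
    rwa [Real.coe_toNNReal _ (by positivity)] at this
  refine lt_of_le_of_lt h3 ?_
  have hd : (0 : ℝ) ≤ d := Nat.cast_nonneg d
  rw [mul_div_assoc', div_lt_iff₀ (by positivity)]
  nlinarith

omit [CompleteSpace Ω] [NormedAlgebra ℚ_[ℓ] Ω] in
lemma mem_small {ε : ℝ} (hε : 0 < ε) :
    {M : Matrix (Fin d) (Fin d) Ω | ∀ i j, ‖M i j‖ ≤ ε} ∈ 𝓝 (0 : Matrix (Fin d) (Fin d) Ω) := by
  have h1 : {M : Matrix (Fin d) (Fin d) Ω | ∀ i j, ‖M i j‖ ≤ ε} =
      ⋂ i, ⋂ j, {M : Matrix (Fin d) (Fin d) Ω | ‖M i j‖ ≤ ε} := by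
    ext M
    simp
  rw [h1]
  refine Filter.iInter_mem.2 fun i => Filter.iInter_mem.2 fun j => ?_
  have h2 : Continuous fun M : Matrix (Fin d) (Fin d) Ω => ‖M i j‖ :=
    (continuous_id.matrix_elem i j).norm
  have h3 := h2.tendsto (0 : Matrix (Fin d) (Fin d) Ω)
  rw [Matrix.zero_apply, norm_zero] at h3
  exact (h3.eventually (gt_mem_nhds hε)).mono fun M hM => le_of_lt hM

set_option backward.isDefEq.respectTransparency false in
variable (ℓ) in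
include ℓ in
/-- `exp` maps neighbourhoods of zero to neighbourhoods of one. -/
lemma map_nhds_mat : Filter.map (NormedSpace.exp : Matrix (Fin d) (Fin d) Ω → _)
    (𝓝 (0 : Matrix (Fin d) (Fin d) Ω)) = 𝓝 (1 : Matrix (Fin d) (Fin d) Ω) := by
  have h1 : HasStrictFDerivAt (NormedSpace.exp : Matrix (Fin d) (Fin d) Ω → _)
      (((ContinuousLinearEquiv.refl ℚ_[ℓ] (Matrix (Fin d) (Fin d) Ω))) :
        Matrix (Fin d) (Fin d) Ω →L[ℚ_[ℓ]] Matrix (Fin d) (Fin d) Ω)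
      (0 : Matrix (Fin d) (Fin d) Ω) :=
    hasStrictFDerivAt_exp_zero_of_radius_pos (radius_pos (ℓ := ℓ) (Matrix (Fin d) (Fin d) Ω))
  have h2 := h1.map_nhds_eq_of_equiv
  rwa [NormedSpace.exp_zero] at h2

variable (ℓ) in
include ℓ in
/-- Existence of exponentials. -/
theorem exists_exp : ∃ r > (0 : ℝ), ∀ A : Module.End Ω V,
    (∀ i j, ‖LinearMap.toMatrix b b A i j‖ ≤ r) → ∃ g, IsExp A g := by
  obtain ⟨r, hr, h1⟩ := small_mem (Metric.eball_mem_nhds (0 : Matrix (Fin d) (Fin d) Ω)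
    (radius_pos (ℓ := ℓ) (Matrix (Fin d) (Fin d) Ω)))
  refine ⟨r, hr, fun A hA => ?_⟩
  have h2 := isExp_mat (ℓ := ℓ) b (LinearMap.toMatrix b b A) (h1 _ hA)
  rw [Matrix.toLin_toMatrix] at h2
  exact ⟨_, h2⟩

variable (ℓ) in
include ℓ in
/-- Existence of logarithms. -/
theorem exists_log {ε : ℝ} (hε : 0 < ε) : ∃ δ > (0 : ℝ), ∀ g : Module.End Ω V,
    (∀ i j, ‖LinearMap.toMatrix b b (g - 1) i j‖ ≤ δ) →
    ∃ A, (∀ i j, ‖LinearMap.toMatrix b b A i j‖ ≤ ε) ∧ IsExp A g := by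
  have h1 : {M : Matrix (Fin d) (Fin d) Ω | ∀ i j, ‖M i j‖ ≤ ε} ∩
      Metric.eball (0 : Matrix (Fin d) (Fin d) Ω)
        (NormedSpace.expSeries ℚ_[ℓ] (Matrix (Fin d) (Fin d) Ω)).radius ∈
      𝓝 (0 : Matrix (Fin d) (Fin d) Ω) :=
    Filter.inter_mem (mem_small hε) (Metric.eball_mem_nhds _
      (radius_pos (ℓ := ℓ) (Matrix (Fin d) (Fin d) Ω)))
  have h2 := Filter.image_mem_map (m := (NormedSpace.exp : Matrix (Fin d) (Fin d) Ω → _)) h1
  rw [map_nhds_mat ℓ] at h2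
  have h3 : (fun M : Matrix (Fin d) (Fin d) Ω => 1 + M) ⁻¹' (NormedSpace.exp ''
      ({M : Matrix (Fin d) (Fin d) Ω | ∀ i j, ‖M i j‖ ≤ ε} ∩
      Metric.eball (0 : Matrix (Fin d) (Fin d) Ω)
        (NormedSpace.expSeries ℚ_[ℓ] (Matrix (Fin d) (Fin d) Ω)).radius)) ∈
      𝓝 (0 : Matrix (Fin d) (Fin d) Ω) := by
    have h4 : Filter.Tendsto (fun M : Matrix (Fin d) (Fin d) Ω => 1 + M) (𝓝 0) (𝓝 (1 + 0)) :=
      (continuous_const.add continuous_id).tendsto 0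
    rw [add_zero] at h4
    exact h4 h2
  obtain ⟨δ, hδ, h4⟩ := small_mem h3
  refine ⟨δ, hδ, fun g hg => ?_⟩
  obtain ⟨M, ⟨hM1, hM2⟩, hM3⟩ := h4 _ hg
  have h5 := isExp_mat (ℓ := ℓ) b M hM2
  have h6 : NormedSpace.exp M = LinearMap.toMatrix b b g := by
    rw [hM3, map_sub, LinearMap.toMatrix_one]
    exact add_sub_cancel _ _
  rw [h6, Matrix.toLin_toMatrix] at h5
  refine ⟨Matrix.toLin b b M, fun i j => ?_, h5⟩
  rw [LinearMap.toMatrix_toLin]
  exact hM1 i j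

variable (ℓ) in
include ℓ in
/-- The exponential is continuous at zero. -/
theorem exp_small {ε : ℝ} (hε : 0 < ε) : ∃ δ > (0 : ℝ), ∀ A g : Module.End Ω V,
    (∀ i j, ‖LinearMap.toMatrix b b A i j‖ ≤ δ) → IsExp A g →
    ∀ i j, ‖LinearMap.toMatrix b b (g - 1) i j‖ ≤ ε := by
  have hV : FiniteDimensional Ω V := Module.Finite.of_basis b
  have h1 : (fun M : Matrix (Fin d) (Fin d) Ω => M - 1) ⁻¹'
      {M : Matrix (Fin d) (Fin d) Ω | ∀ i j, ‖M i j‖ ≤ ε} ∈ 𝓝 (1 : Matrix (Fin d) (Fin d) Ω) := by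
    have h4 : Filter.Tendsto (fun M : Matrix (Fin d) (Fin d) Ω => M - 1) (𝓝 1) (𝓝 (1 - 1)) :=
      (continuous_id.sub continuous_const).tendsto 1
    rw [sub_self] at h4
    exact h4 (mem_small hε)
  rw [← map_nhds_mat ℓ] at h1
  have h2 := Filter.inter_mem (Filter.mem_map.1 h1) (Metric.eball_mem_nhds _
      (radius_pos (ℓ := ℓ) (Matrix (Fin d) (Fin d) Ω)))
  obtain ⟨δ, hδ, h3⟩ := small_mem h2
  refine ⟨δ, hδ, fun A g hA hg => ?_⟩
  obtain ⟨h4, h5⟩ := h3 _ hA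
  have h6 := isExp_mat (ℓ := ℓ) b (LinearMap.toMatrix b b A) h5
  rw [Matrix.toLin_toMatrix] at h6
  have h7 : g = Matrix.toLin b b (NormedSpace.exp (LinearMap.toMatrix b b A)) :=
    hg.unique_right h6
  have h8 : LinearMap.toMatrix b b (g - 1) =
      NormedSpace.exp (LinearMap.toMatrix b b A) - 1 := by
    rw [h7, map_sub, LinearMap.toMatrix_toLin, LinearMap.toMatrix_one]
  rw [h8]
  exact h4

end

end Pool.Agent.Z15.E
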