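import Pool.Agent.T2h11.MT.Stm
import Pool.Agent.Z15.E.Det
import Pool.Agent.Z15.E.Near

/-!
# Exponentials: the tasks EXP, SXP, DET, CNJ of project MT
-/

set_option autoImplicit false

namespace Pool.Agent.Z15.E

open Module Pool.Agent.T2h11.MT
open Pool.Agent.N184.HK

theorem t_EXP : S_EXP := by
  intro ℓ _ V _ _ _
  obtain ⟨r, hr, h1⟩ := exists_exp ℓ (finBasis ℂ_[ℓ] V)
  refine ⟨r, hr, h1, fun A B g h _ _ hc hA hB => ?_, fun A B g _ _ hA hB => ?_,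
    fun ε hε => exists_log ℓ (finBasis ℂ_[ℓ] V) hε,
    fun ε hε => exp_small ℓ (finBasis ℂ_[ℓ] V) hε⟩
  · exact Pool.Agent.Z15.E.IsExp.add ℓ hA hB hc
  · exact Pool.Agent.Z15.E.IsExp.unique_left ℓ hA hB

theorem t_DET : S_DET := by
  intro ℓ _ V _ _ _
  exact ⟨1, one_pos, fun A g _ hA => Pool.Agent.Z15.E.IsExp.det ℓ hA⟩

/-- Endomorphisms of a line. -/
lemma sexp_of {Ω : Type} [NormedField Ω] {A g : Module.End Ω Ω}
    (h : Pool.Agent.Z15.E.IsExp A g) : IsExp1 (A 1) (g 1) := by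
  have hA : ∀ n : ℕ, (A ^ n) 1 = (A 1) ^ n := by
    intro n
    induction n with
    | zero => simp
    | succ n ih =>
      have h1 : (A ^ n) (A 1) = A 1 * (A ^ n) 1 := by
        have := (A ^ n).map_smul (A 1) 1
        rwa [smul_eq_mul, mul_one, smul_eq_mul] at this
      rw [_root_.pow_succ, Module.End.mul_apply, h1, ih, _root_.pow_succ']
  have h2 := h (LinearMap.applyₗ (1 : Ω))
  refine h2.congr_fun fun n => ?_
  change _ = ((n.factorial : Ω))⁻¹ * (A ^ n) 1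
  rw [hA]

theorem t_SXP : S_SXP := by
  intro ℓ _
  let b : Basis (Fin 1) ℂ_[ℓ] ℂ_[ℓ] := Basis.singleton (Fin 1) ℂ_[ℓ]
  have hb : ∀ (A : Module.End ℂ_[ℓ] ℂ_[ℓ]) (i j : Fin 1), LinearMap.toMatrix b b A i j = A 1 := by
    intro A i j
    rw [LinearMap.toMatrix_apply]
    simp [b]
  obtain ⟨r, hr, h1⟩ := exists_exp ℓ b
  have hex : ∀ x : ℂ_[ℓ], ‖x‖ ≤ r → ∃ y, IsExp1 x y := by
    intro x hx
    obtain ⟨g, hg⟩ := h1 (x • (1 : Module.End ℂ_[ℓ] ℂ_[ℓ])) fun i j => by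
      rw [hb]
      simpa using hx
    have h2 := sexp_of hg
    have h3 : (x • (1 : Module.End ℂ_[ℓ] ℂ_[ℓ])) 1 = x := by simp
    rw [h3] at h2
    exact ⟨_, h2⟩
  refine ⟨r, hr, fun x hx => ?_, fun x y x' y' _ _ h h' => IsExp1.add ℓ h h',
    fun x x' y _ _ h h' => IsExp1.unique_left ℓ h h', fun ε hε => ?_⟩
  · obtain ⟨y, hy⟩ := hex x hx
    obtain ⟨z, hz⟩ := hex (-x) (by rwa [norm_neg])
    refine ⟨y, hy, fun h0 => ?_⟩
    have h2 := IsExp1.add ℓ hy hz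
    rw [add_neg_cancel] at h2
    have h3 := h2.unique_right IsExp1.zero
    rw [h0, zero_mul] at h3
    exact zero_ne_one h3
  · obtain ⟨δ, hδ, h2⟩ := exists_log ℓ b hε
    refine ⟨δ, hδ, fun y hy => ?_⟩
    obtain ⟨A, hA, hg⟩ := h2 (y • (1 : Module.End ℂ_[ℓ] ℂ_[ℓ])) fun i j => by
      rw [hb]
      simpa using hy
    have h3 := sexp_of hg
    have h4 : (y • (1 : Module.End ℂ_[ℓ] ℂ_[ℓ])) 1 = y := by simp
    rw [h4] at h3
    refine ⟨A 1, ?_, h3⟩
    rw [← hb A 0 0]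
    exact hA 0 0

theorem t_CNJ : S_CNJ := by
  intro ℓ _ d c Y i
  refine ⟨1, one_pos, fun f A t s g hA _ _ _ hf hg B hB => ?_⟩
  have hf' : Pool.Agent.Z15.E.IsExp (A + t • (1 : Module.End ℂ_[ℓ] (Y.H 2))) (en f) := hf
  have hg' : Pool.Agent.Z15.E.IsExp (Y.ρ i A + s • (1 : Module.End ℂ_[ℓ] (Y.H i))) g := hg
  have hff : en f * en f.symm = 1 := by
    ext x
    simp
  obtain ⟨h, -, hgh, hhg⟩ := Pool.Agent.Z15.E.IsExp.neg ℓ hg'
  have h1 := Pool.Agent.Z15.E.IsExp.ad ℓ hf' hff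
  have h2 := Pool.Agent.Z15.E.IsExp.ad ℓ hg' hgh
  -- the powers
  have hpow : ∀ n : ℕ, ∀ B, Skew Y.q B →
      Skew Y.q ((ad (A + t • (1 : Module.End ℂ_[ℓ] (Y.H 2))) ^ n) B) ∧
      (ad (Y.ρ i A + s • (1 : Module.End ℂ_[ℓ] (Y.H i))) ^ n) (Y.ρ i B) =
        Y.ρ i ((ad (A + t • (1 : Module.End ℂ_[ℓ] (Y.H 2))) ^ n) B) := by
    intro n
    induction n with
    | zero => exact fun B hB => ⟨hB, rfl⟩
    | succ n ih =>
      intro B hB
      have h3 : ad (A + t • (1 : Module.End ℂ_[ℓ] (Y.H 2))) B = A * B - B * A := by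
        rw [ad_apply, add_mul, mul_add, smul_mul_assoc, mul_smul_comm, one_mul, mul_one]
        abel
      have h4 : ad (Y.ρ i A + s • (1 : Module.End ℂ_[ℓ] (Y.H i))) (Y.ρ i B) =
          Y.ρ i (A * B - B * A) := by
        rw [ad_apply, add_mul, mul_add, smul_mul_assoc, mul_smul_comm, one_mul, mul_one,
          Y.bracket i A B hA hB]
        abel
      have h5 : Skew Y.q (A * B - B * A) := by
        intro x y
        have e1 := hA (B x) y
        have e2 := hB x (A y)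
        have e3 := hB (A x) y
        have e4 := hA x (B y)
        simp only [LinearMap.sub_apply, Module.End.mul_apply, map_sub]
        linear_combination e1 - e2 - e3 + e4
      rw [_root_.pow_succ, _root_.pow_succ, Module.End.mul_apply, Module.End.mul_apply, h3, h4]
      exact ih _ h5
  have h6 : g * Y.ρ i B * h = Y.ρ i (en f * B * en f.symm) := by
    rw [← sub_eq_zero]
    refine (Module.forall_dual_apply_eq_zero_iff ℂ_[ℓ] _).1 fun L => ?_
    rw [map_sub, sub_eq_zero]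
    have h7 := h2 (L ∘ₗ LinearMap.applyₗ (Y.ρ i B))
    have h8 := h1 (L ∘ₗ (Y.ρ i) ∘ₗ LinearMap.applyₗ B)
    have h9 : (fun n : ℕ => ((n.factorial : ℂ_[ℓ]))⁻¹ * (L ∘ₗ LinearMap.applyₗ (Y.ρ i B))
        (ad (Y.ρ i A + s • (1 : Module.End ℂ_[ℓ] (Y.H i))) ^ n)) =
        fun n : ℕ => ((n.factorial : ℂ_[ℓ]))⁻¹ * (L ∘ₗ (Y.ρ i) ∘ₗ LinearMap.applyₗ B)
        (ad (A + t • (1 : Module.End ℂ_[ℓ] (Y.H 2))) ^ n) := by
      funext n
      congr 1
      exact congrArg L (hpow n B hB).2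
    rw [h9] at h7
    have h10 := h7.unique h8
    exact h10
  calc g * Y.ρ i B = g * Y.ρ i B * h * g := by rw [mul_assoc _ h g, hhg, mul_one]
    _ = Y.ρ i (en f * B * en f.symm) * g := by rw [h6]
    _ = _ := rfl

end Pool.Agent.Z15.E
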