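import Mathlib

/-!
# Exponentials of endomorphisms over `ℓ`-adic fields

`V` is a finite-dimensional vector space over a complete extension `Ω` of `ℚ_ℓ`. No norm on `V` is
chosen: convergence is tested by the linear functionals on `End V`.
-/

set_option autoImplicit false
set_option linter.unusedSectionVars false

namespace Pool.Agent.Z15.E

open Module Filter Topology

section

variable {Ω V W : Type} [NormedField Ω] [AddCommGroup V] [Module Ω V] [AddCommGroup W] [Module Ω W]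

/-- `g` is the exponential of `A`: the exponential series of `A` converges to `g`. -/
def IsExp (A g : Module.End Ω V) : Prop :=
  ∀ L : Module.End Ω V →ₗ[Ω] Ω, HasSum (fun n : ℕ => ((n.factorial : Ω))⁻¹ * L (A ^ n)) (L g)

/-- `s` is the exponential of the number `t`. -/
def IsExp1 (t s : Ω) : Prop := HasSum (fun n : ℕ => ((n.factorial : Ω))⁻¹ * t ^ n) s

/-- Transport of exponentials. -/
lemma IsExp.map {A g : Module.End Ω V} (h : IsExp A g) {B : Module.End Ω W}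
    (Φ : Module.End Ω V →ₗ[Ω] Module.End Ω W) (hΦ : ∀ n : ℕ, Φ (A ^ n) = B ^ n) :
    IsExp B (Φ g) := by
  intro L
  have := h (L ∘ₗ Φ)
  simpa only [LinearMap.comp_apply, hΦ] using this

lemma IsExp.unique_right {A g g' : Module.End Ω V} [FiniteDimensional Ω V] (h : IsExp A g)
    (h' : IsExp A g') : g = g' := by
  rw [← sub_eq_zero]
  refine (Module.forall_dual_apply_eq_zero_iff Ω _).1 fun L => ?_
  rw [map_sub, sub_eq_zero]
  exact (h L).unique (h' L)

lemma IsExp.zero : IsExp (0 : Module.End Ω V) 1 := by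
  intro L
  have h1 : (fun n : ℕ => ((n.factorial : Ω))⁻¹ * L ((0 : Module.End Ω V) ^ n)) =
      fun n => if n = 0 then L 1 else 0 := by
    funext n
    rcases n with _ | n
    · simp
    · simp [zero_pow]
  rw [h1]
  exact hasSum_ite_eq 0 (L 1)

lemma IsExp1.zero : IsExp1 (0 : Ω) 1 := by
  unfold IsExp1
  have h1 : (fun n : ℕ => ((n.factorial : Ω))⁻¹ * (0 : Ω) ^ n) =
      fun n => if n = 0 then 1 else 0 := by
    funext n
    rcases n with _ | n
    · simp
    · simp [zero_pow]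
  rw [h1]
  exact hasSum_ite_eq 0 1

/-- Scalar endomorphisms. -/
lemma IsExp1.smul_one {t s : Ω} (h : IsExp1 t s) :
    IsExp (t • (1 : Module.End Ω V)) (s • (1 : Module.End Ω V)) := by
  intro L
  have h1 := h.mul_right (L 1)
  rw [map_smul, smul_eq_mul]
  refine h1.congr_fun ?_
  intro n
  rw [_root_.smul_pow, one_pow, map_smul, smul_eq_mul]
  ring

end

section

variable {ℓ : ℕ} [Fact ℓ.Prime] {Ω V W : Type} [NormedField Ω] [NormedAlgebra ℚ_[ℓ] Ω]
  [AddCommGroup V] [Module Ω V] [AddCommGroup W] [Module Ω W]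

variable (ℓ Ω) in
include ℓ in
lemma ultra : IsUltrametricDist Ω := IsUltrametricDist.of_normedAlgebra ℚ_[ℓ]

variable (ℓ Ω) in
include ℓ in
lemma charZ : CharZero Ω := charZero_of_injective_algebraMap (algebraMap ℚ_[ℓ] Ω).injective

variable (ℓ Ω) in
lemma norm_ell : ‖(ℓ : Ω)‖ = (ℓ : ℝ)⁻¹ := by
  have h1 : (ℓ : Ω) = algebraMap ℚ_[ℓ] Ω (ℓ : ℚ_[ℓ]) := by simp
  rw [h1, norm_algebraMap']
  exact Padic.norm_p

variable (ℓ Ω) in
include ℓ in
lemma norm_nat_le (n : ℕ) : ‖(n : Ω)‖ ≤ 1 := by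
  have h1 : (n : Ω) = algebraMap ℚ_[ℓ] Ω (n : ℚ_[ℓ]) := by simp
  rw [h1, norm_algebraMap']
  exact_mod_cast Padic.norm_int_le_one (n : ℤ)

variable (ℓ Ω) in
include ℓ in
lemma nonarch : NonarchimedeanRing Ω := by
  have := ultra ℓ Ω
  have h : NonarchimedeanAddGroup Ω := inferInstance
  exact { is_nonarchimedean := h.is_nonarchimedean }

include ℓ in
variable (ℓ) in
lemma hasSum_norm_le {ι : Type} {f : ι → Ω} {a : Ω} (h : HasSum f a) {C : ℝ} (hC : 0 ≤ C)
    (hf : ∀ i, ‖f i‖ ≤ C) : ‖a‖ ≤ C := by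
  have := ultra ℓ Ω
  refine le_of_tendsto (Filter.Tendsto.norm h) (Filter.Eventually.of_forall fun s => ?_)
  exact IsUltrametricDist.norm_sum_le_of_forall_le_of_nonneg hC fun i _ => hf i

lemma bilin [FiniteDimensional Ω V] (L : Module.End Ω V →ₗ[Ω] Ω) :
    ∃ (m : ℕ) (P Q : Fin m → (Module.End Ω V →ₗ[Ω] Ω)),
      ∀ X Y : Module.End Ω V, L (X * Y) = ∑ j, P j X * Q j Y := by
  set b := Module.finBasis Ω (Module.End Ω V)
  refine ⟨_, fun j => L ∘ₗ LinearMap.mulRight Ω (b j), fun j => b.coord j, fun X Y => ?_⟩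
  conv_lhs => rw [← b.sum_repr Y]
  rw [Finset.mul_sum, map_sum]
  refine Finset.sum_congr rfl fun j _ => ?_
  rw [mul_smul_comm, map_smul, smul_eq_mul, mul_comm]
  rfl

lemma choose_inv [CharZero Ω] {i j n : ℕ} (h : i + j = n) :
    ((n.factorial : Ω))⁻¹ * (n.choose i : Ω) = ((i.factorial : Ω))⁻¹ * ((j.factorial : Ω))⁻¹ := by
  subst h
  rw [Nat.cast_add_choose]
  have e1 : ((i.factorial : Ω)) ≠ 0 := by exact_mod_cast Nat.factorial_ne_zero _
  have e2 : ((j.factorial : Ω)) ≠ 0 := by exact_mod_cast Nat.factorial_ne_zero _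
  have e3 : (((i + j).factorial : Ω)) ≠ 0 := by exact_mod_cast Nat.factorial_ne_zero _
  field_simp

include ℓ in
variable (ℓ) in
/-- The exponential of a sum of commuting endomorphisms. -/
lemma IsExp.add [FiniteDimensional Ω V] {A g B h : Module.End Ω V} (hA : IsExp A g)
    (hB : IsExp B h) (hc : Commute A B) : IsExp (A + B) (g * h) := by
  have := ultra ℓ Ω
  have := charZ ℓ Ω
  have := nonarch ℓ Ω
  intro L
  obtain ⟨m, P, Q, hPQ⟩ := bilin L
  have h1 : HasSum (fun x : ℕ × ℕ => ((x.1.factorial : Ω))⁻¹ * ((x.2.factorial : Ω))⁻¹ *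
      L (A ^ x.1 * B ^ x.2)) (L (g * h)) := by
    have h2 : ∀ j ∈ (Finset.univ : Finset (Fin m)), HasSum (fun x : ℕ × ℕ =>
        (((x.1.factorial : Ω))⁻¹ * P j (A ^ x.1)) * (((x.2.factorial : Ω))⁻¹ * Q j (B ^ x.2)))
        (P j g * Q j h) := fun j _ => (hA (P j)).mul_of_nonarchimedean (hB (Q j))
    have h3 := hasSum_sum h2
    rw [hPQ g h]
    refine h3.congr_fun ?_
    intro x
    rw [hPQ, Finset.mul_sum]
    refine Finset.sum_congr rfl fun j _ => ?_
    ring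
  have h4 := ((Finset.HasAntidiagonal.sigmaAntidiagonalEquivProd (A := ℕ)).hasSum_iff).2 h1
  have h5 := h4.sigma (fun n => hasSum_fintype _)
  refine h5.congr_fun ?_
  intro n
  rw [hc.add_pow' n, map_sum, Finset.mul_sum, ← Finset.sum_coe_sort]
  refine Finset.sum_congr rfl fun x _ => ?_
  have hx := Finset.HasAntidiagonal.mem_antidiagonal.1 x.2
  rw [map_nsmul, nsmul_eq_mul]
  simp only [Function.comp_apply, Finset.HasAntidiagonal.sigmaAntidiagonalEquivProd_apply]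
  rw [← mul_assoc, choose_inv hx]

include ℓ in
variable (ℓ) in
/-- The exponential of a sum of two numbers. -/
lemma IsExp1.add {t s t' s' : Ω} (h : IsExp1 t s) (h' : IsExp1 t' s') :
    IsExp1 (t + t') (s * s') := by
  have := ultra ℓ Ω
  have := charZ ℓ Ω
  have := nonarch ℓ Ω
  have h1 : HasSum (fun x : ℕ × ℕ => (((x.1.factorial : Ω))⁻¹ * t ^ x.1) *
      (((x.2.factorial : Ω))⁻¹ * t' ^ x.2)) (s * s') := HasSum.mul_of_nonarchimedean h h'
  have h4 := ((Finset.HasAntidiagonal.sigmaAntidiagonalEquivProd (A := ℕ)).hasSum_iff).2 h1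
  have h5 := h4.sigma (fun n => hasSum_fintype _)
  refine h5.congr_fun ?_
  intro n
  rw [(Commute.all t t').add_pow' n, Finset.mul_sum, ← Finset.sum_coe_sort]
  refine Finset.sum_congr rfl fun x _ => ?_
  have hx := Finset.HasAntidiagonal.mem_antidiagonal.1 x.2
  rw [nsmul_eq_mul]
  simp only [Function.comp_apply, Finset.HasAntidiagonal.sigmaAntidiagonalEquivProd_apply]
  rw [← mul_assoc, choose_inv hx]
  ring

include ℓ in
variable (ℓ) in
lemma IsExp.nsmul [FiniteDimensional Ω V] {A g : Module.End Ω V} (hA : IsExp A g) (n : ℕ) :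
    IsExp (n • A) (g ^ n) := by
  induction n with
  | zero => rw [zero_smul, pow_zero]; exact IsExp.zero
  | succ n ih =>
    rw [succ_nsmul, pow_succ]
    exact IsExp.add ℓ ih hA ((Commute.refl A).smul_left n)

include ℓ in
variable (ℓ) in
lemma IsExp1.nsmul {t s : Ω} (h : IsExp1 t s) (n : ℕ) : IsExp1 (n * t) (s ^ n) := by
  induction n with
  | zero => rw [Nat.cast_zero, zero_mul, pow_zero]; exact IsExp1.zero
  | succ n ih =>
    rw [Nat.cast_succ, add_mul, one_mul, pow_succ]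
    exact IsExp1.add ℓ ih h

include ℓ in
variable (ℓ) in
lemma seq_lim {a : ℕ → Ω} {e : ℕ → Ω} {b : Ω} (hb : HasSum (fun n => ((n.factorial : Ω))⁻¹ * a n) b)
    (he : ∀ k, HasSum (fun n => ((n.factorial : Ω))⁻¹ * (((ℓ : Ω) ^ k) ^ n * a n)) (e k)) :
    Tendsto (fun k => ((ℓ : Ω) ^ k)⁻¹ * (e k - a 0)) atTop (𝓝 (a 1)) := by
  have hu := ultra ℓ Ω
  have := charZ ℓ Ω
  have hℓ := (Fact.out : ℓ.Prime)
  have hℓ0 : (ℓ : Ω) ≠ 0 := by exact_mod_cast hℓ.ne_zero
  -- the terms are bounded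
  obtain ⟨C, hC⟩ : ∃ C : ℝ, ∀ n, ‖((n.factorial : Ω))⁻¹ * a n‖ ≤ C := by
    have h1 := hb.summable.tendsto_cofinite_zero
    rw [Nat.cofinite_eq_atTop] at h1
    obtain ⟨C, hC⟩ := h1.norm.bddAbove_range
    exact ⟨C, fun n => hC ⟨n, rfl⟩⟩
  have hC0 : 0 ≤ C := (norm_nonneg _).trans (hC 0)
  rw [tendsto_iff_norm_sub_tendsto_zero]
  have hlim : Tendsto (fun k : ℕ => C * ((ℓ : ℝ)⁻¹) ^ k) atTop (𝓝 0) := by
    have h2 : Tendsto (fun k : ℕ => ((ℓ : ℝ)⁻¹) ^ k) atTop (𝓝 0) :=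
      tendsto_pow_atTop_nhds_zero_of_lt_one (by positivity)
        (inv_lt_one_of_one_lt₀ (by exact_mod_cast hℓ.one_lt))
    simpa using h2.const_mul C
  refine squeeze_zero (fun k => norm_nonneg _) (fun k => ?_) hlim
  have hk := he k
  have h3 := (hasSum_nat_add_iff' 2).2 hk
  have h4 : ‖e k - ∑ i ∈ Finset.range 2, ((i.factorial : Ω))⁻¹ * (((ℓ : Ω) ^ k) ^ i * a i)‖ ≤
      C * (((ℓ : ℝ)⁻¹) ^ k) ^ 2 := by
    refine hasSum_norm_le ℓ h3 (by positivity) fun n => ?_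
    have h5 : (((n + 2).factorial : Ω))⁻¹ * (((ℓ : Ω) ^ k) ^ (n + 2) * a (n + 2)) =
        ((ℓ : Ω) ^ k) ^ (n + 2) * ((((n + 2).factorial : Ω))⁻¹ * a (n + 2)) := by ring
    rw [h5, norm_mul, norm_pow, norm_pow, norm_ell ℓ Ω, mul_comm]
    refine mul_le_mul (hC _) ?_ (by positivity) hC0
    refine pow_le_pow_of_le_one (by positivity) ?_ (by omega)
    refine pow_le_one₀ (by positivity) ?_
    exact (inv_lt_one_of_one_lt₀ (by exact_mod_cast hℓ.one_lt)).le
  have h6 : ((ℓ : Ω) ^ k)⁻¹ * (e k - a 0) - a 1 = ((ℓ : Ω) ^ k)⁻¹ *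
      (e k - ∑ i ∈ Finset.range 2, ((i.factorial : Ω))⁻¹ * (((ℓ : Ω) ^ k) ^ i * a i)) := by
    rw [Finset.sum_range_succ, Finset.sum_range_one]
    simp only [Nat.factorial_zero, Nat.factorial_one, Nat.cast_one, inv_one, one_mul, pow_zero,
      pow_one]
    have : ((ℓ : Ω) ^ k) ≠ 0 := pow_ne_zero _ hℓ0
    field_simp
    ring
  rw [h6, norm_mul, norm_inv, norm_pow, norm_ell ℓ Ω]
  have h7 : (((ℓ : ℝ)⁻¹) ^ k)⁻¹ * (C * (((ℓ : ℝ)⁻¹) ^ k) ^ 2) = C * ((ℓ : ℝ)⁻¹) ^ k := by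
    have : (((ℓ : ℝ)⁻¹) ^ k) ≠ 0 := pow_ne_zero _ (inv_ne_zero (by exact_mod_cast hℓ.ne_zero))
    field_simp
  rw [← h7]
  exact mul_le_mul_of_nonneg_left h4 (by positivity)

include ℓ in
variable (ℓ) in
/-- The logarithm is a limit of polynomials in the exponential. -/
lemma IsExp.lim [FiniteDimensional Ω V] {A g : Module.End Ω V} (hA : IsExp A g)
    (L : Module.End Ω V →ₗ[Ω] Ω) :
    Tendsto (fun k => ((ℓ : Ω) ^ k)⁻¹ * (L (g ^ (ℓ ^ k)) - L 1)) atTop (𝓝 (L A)) := by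
  have h1 := seq_lim ℓ (a := fun n => L (A ^ n)) (e := fun k => L (g ^ (ℓ ^ k))) (hA L) (fun k => by
    have h2 := (IsExp.nsmul ℓ hA (ℓ ^ k)) L
    refine h2.congr_fun ?_
    intro n
    rw [← Nat.cast_smul_eq_nsmul Ω, _root_.smul_pow, map_smul, smul_eq_mul, Nat.cast_pow])
  simpa using h1

include ℓ in
variable (ℓ) in
lemma IsExp1.lim {t s : Ω} (h : IsExp1 t s) :
    Tendsto (fun k => ((ℓ : Ω) ^ k)⁻¹ * (s ^ (ℓ ^ k) - 1)) atTop (𝓝 t) := by
  have h1 := seq_lim ℓ (a := fun n => t ^ n) (e := fun k => s ^ (ℓ ^ k)) h (fun k => by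
    have h2 := IsExp1.nsmul ℓ h (ℓ ^ k)
    refine h2.congr_fun ?_
    intro n
    rw [Nat.cast_pow, mul_pow])
  simpa using h1

include ℓ in
variable (ℓ) in
/-- The exponential is injective. -/
lemma IsExp.unique_left [FiniteDimensional Ω V] {A B g : Module.End Ω V} (hA : IsExp A g)
    (hB : IsExp B g) : A = B := by
  rw [← sub_eq_zero]
  refine (Module.forall_dual_apply_eq_zero_iff Ω _).1 fun L => ?_
  rw [map_sub, sub_eq_zero]
  exact tendsto_nhds_unique (IsExp.lim ℓ hA L) (IsExp.lim ℓ hB L)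

include ℓ in
variable (ℓ) in
lemma IsExp1.unique_left {t t' s : Ω} (h : IsExp1 t s) (h' : IsExp1 t' s) : t = t' :=
  tendsto_nhds_unique (IsExp1.lim ℓ h) (IsExp1.lim ℓ h')

lemma IsExp1.unique_right {t s s' : Ω} (h : IsExp1 t s) (h' : IsExp1 t s') : s = s' :=
  HasSum.unique h h'

include ℓ in
variable (ℓ) in
/-- A linear map which respects the exponentials respects the endomorphisms. -/
lemma IsExp.comm [FiniteDimensional Ω V] [FiniteDimensional Ω W] {A g : Module.End Ω V}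
    {B h : Module.End Ω W} (hA : IsExp A g) (hB : IsExp B h) (F : V →ₗ[Ω] W)
    (hF : F ∘ₗ g = h ∘ₗ F) : F ∘ₗ A = B ∘ₗ F := by
  have hpow : ∀ n : ℕ, F ∘ₗ (g ^ n) = (h ^ n) ∘ₗ F := by
    intro n
    induction n with
    | zero => rfl
    | succ n ih =>
      rw [_root_.pow_succ, _root_.pow_succ]
      change (F ∘ₗ (g ^ n)) ∘ₗ g = (h ^ n) ∘ₗ (h ∘ₗ F)
      rw [ih, ← hF]
      rfl
  rw [← sub_eq_zero]
  refine (Module.forall_dual_apply_eq_zero_iff Ω _).1 fun L => ?_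
  rw [map_sub, sub_eq_zero]
  have h1 := IsExp.lim ℓ hA (L ∘ₗ (LinearMap.llcomp Ω V V W F))
  have h2 := IsExp.lim ℓ hB (L ∘ₗ (LinearMap.lcomp Ω W F))
  refine tendsto_nhds_unique h1 (h2.congr fun k => ?_)
  change ((ℓ : Ω) ^ k)⁻¹ * (L ((h ^ (ℓ ^ k)) ∘ₗ F) - L (1 ∘ₗ F)) =
    ((ℓ : Ω) ^ k)⁻¹ * (L (F ∘ₗ (g ^ (ℓ ^ k))) - L (F ∘ₗ 1))
  rw [hpow]
  rfl

include ℓ in
variable (ℓ) in
/-- Subspaces which are stable under the exponential are stable under the endomorphism. -/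
lemma IsExp.stable [FiniteDimensional Ω V] {A g : Module.End Ω V} (hA : IsExp A g)
    {U : Submodule Ω V} (hU : ∀ x ∈ U, g x ∈ U) : ∀ x ∈ U, A x ∈ U := by
  intro x hx
  have hpow : ∀ n : ℕ, (g ^ n) x ∈ U := by
    intro n
    induction n with
    | zero => exact hx
    | succ n ih => rw [_root_.pow_succ']; exact hU _ ih
  by_contra hne
  obtain ⟨f, hf1, hf2⟩ := Submodule.exists_dual_map_eq_bot_of_notMem hne inferInstance
  have hf3 : ∀ y ∈ U, f y = 0 := by
    intro y hy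
    have : f y ∈ U.map f := ⟨y, hy, rfl⟩
    rw [hf2] at this
    exact this
  have h1 := IsExp.lim ℓ hA (f ∘ₗ (LinearMap.applyₗ x))
  have h2 : (fun k => ((ℓ : Ω) ^ k)⁻¹ * ((f ∘ₗ (LinearMap.applyₗ x)) (g ^ (ℓ ^ k)) -
      (f ∘ₗ (LinearMap.applyₗ x)) (1 : Module.End Ω V))) = fun _ => (0 : Ω) := by
    funext k
    change ((ℓ : Ω) ^ k)⁻¹ * (f ((g ^ (ℓ ^ k)) x) - f x) = 0
    rw [hf3 _ (hpow _), hf3 _ hx, sub_zero, mul_zero]
  rw [h2] at h1
  exact hf1 (tendsto_nhds_unique h1 tendsto_const_nhds)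

/-- The exponential on the image of an idempotent. -/
lemma IsExp.idem {A g z : Module.End Ω V} (hA : IsExp A g) (hc : Commute A z) (hz : z * z = z) :
    IsExp (A * z) (g * z + (1 - z)) := by
  intro L
  have h1 := hA (L ∘ₗ LinearMap.mulRight Ω z)
  have h2 : HasSum (fun n : ℕ => if n = 0 then L (1 - z) else 0) (L (1 - z)) :=
    hasSum_ite_eq 0 (L (1 - z))
  have h3 := h1.add h2
  rw [map_add]
  refine h3.congr_fun ?_
  intro n
  change ((n.factorial : Ω))⁻¹ * L ((A * z) ^ n) =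
    ((n.factorial : Ω))⁻¹ * L (A ^ n * z) + if n = 0 then L (1 - z) else 0
  rcases n with _ | n
  · rw [if_pos rfl, pow_zero, pow_zero, one_mul, Nat.factorial_zero, Nat.cast_one, inv_one,
      one_mul, one_mul, ← map_add, add_sub_cancel]
  · rw [if_neg (Nat.succ_ne_zero n), add_zero, hc.mul_pow]
    congr 3
    clear h1 h2 h3
    induction n with
    | zero => rw [zero_add, pow_one]
    | succ n ih => rw [_root_.pow_succ, ih, hz]

/-- Left multiplication. -/
lemma IsExp.mulLeft {A g : Module.End Ω V} (hA : IsExp A g) :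
    IsExp (LinearMap.mulLeft Ω A) (LinearMap.mulLeft Ω g) :=
  hA.map (W := Module.End Ω V) (LinearMap.mul Ω (Module.End Ω V)) fun n => by
    rw [LinearMap.pow_mulLeft]; rfl

/-- Right multiplication. -/
lemma IsExp.mulRight {A g : Module.End Ω V} (hA : IsExp A g) :
    IsExp (LinearMap.mulRight Ω A) (LinearMap.mulRight Ω g) :=
  hA.map (W := Module.End Ω V) (LinearMap.mul Ω (Module.End Ω V)).flip fun n => by
    rw [LinearMap.pow_mulRight]; rfl

/-- The bracket with `A`. -/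
def ad (A : Module.End Ω V) : Module.End Ω (Module.End Ω V) :=
  LinearMap.mulLeft Ω A - LinearMap.mulRight Ω A

@[simp] lemma ad_apply (A B : Module.End Ω V) : ad A B = A * B - B * A := rfl

include ℓ in
variable (ℓ) in
/-- Scalar multiples by numbers of norm at most one. -/
lemma IsExp.smul [CompleteSpace Ω] [FiniteDimensional Ω V] {A g : Module.End Ω V}
    (hA : IsExp A g) {c : Ω} (hc : ‖c‖ ≤ 1) : ∃ h, IsExp (c • A) h := by
  have := ultra ℓ Ω
  have hS : ∀ L : Module.End Ω V →ₗ[Ω] Ω,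
      Summable fun n : ℕ => ((n.factorial : Ω))⁻¹ * L ((c • A) ^ n) := by
    intro L
    have h1 := (hA L).summable.tendsto_cofinite_zero
    refine NonarchimedeanAddGroup.summable_of_tendsto_cofinite_zero ?_
    refine squeeze_zero_norm (fun n => ?_) (tendsto_norm_zero.comp h1)
    rw [_root_.smul_pow, map_smul, smul_eq_mul, mul_left_comm, norm_mul, norm_pow]
    exact mul_le_of_le_one_left (norm_nonneg _) (pow_le_one₀ (norm_nonneg _) hc)
  let ev : Module.Dual Ω (Module.End Ω V) →ₗ[Ω] Ω :=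
    { toFun := fun L => ∑' n : ℕ, ((n.factorial : Ω))⁻¹ * L ((c • A) ^ n)
      map_add' := fun L M => by
        rw [← (hS L).tsum_add (hS M)]
        refine tsum_congr fun n => ?_
        rw [LinearMap.add_apply, mul_add]
      map_smul' := fun a L => by
        rw [RingHom.id_apply, smul_eq_mul, ← tsum_mul_left]
        refine tsum_congr fun n => ?_
        rw [LinearMap.smul_apply, smul_eq_mul]
        ring }
  refine ⟨(Module.evalEquiv Ω (Module.End Ω V)).symm ev, fun L => ?_⟩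
  have h2 : L ((Module.evalEquiv Ω (Module.End Ω V)).symm ev) = ev L :=
    Module.apply_evalEquiv_symm_apply (R := Ω) (M := Module.End Ω V) L ev
  rw [h2]
  exact (hS L).hasSum

include ℓ in
variable (ℓ) in
/-- The inverse of an exponential. -/
lemma IsExp.neg [CompleteSpace Ω] [FiniteDimensional Ω V] {A g : Module.End Ω V}
    (hA : IsExp A g) : ∃ h, IsExp (-A) h ∧ g * h = 1 ∧ h * g = 1 := by
  obtain ⟨h, hh⟩ := IsExp.smul ℓ hA (c := -1) (by rw [norm_neg, norm_one])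
  rw [neg_one_smul] at hh
  refine ⟨h, hh, ?_, ?_⟩
  · have h1 := IsExp.add ℓ hA hh (Commute.neg_right (Commute.refl A))
    rw [add_neg_cancel] at h1
    exact h1.unique_right IsExp.zero
  · have h1 := IsExp.add ℓ hh hA (Commute.neg_left (Commute.refl A))
    rw [neg_add_cancel] at h1
    exact h1.unique_right IsExp.zero

include ℓ in
variable (ℓ) in
lemma IsExp.ad [CompleteSpace Ω] [FiniteDimensional Ω V] {A g h : Module.End Ω V}
    (hA : IsExp A g) (hgh : g * h = 1) :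
    IsExp (ad A) (LinearMap.mulLeft Ω g * LinearMap.mulRight Ω h) := by
  obtain ⟨h', h1, h2, h3⟩ := IsExp.neg ℓ hA
  have h4 : h' = h := by
    rw [← mul_one h', ← hgh, ← mul_assoc, h3, one_mul]
  rw [h4] at h1
  have h5 := IsExp.add ℓ hA.mulLeft h1.mulRight (LinearMap.commute_mulLeft_right (R := Ω) A (-A))
  have h6 : LinearMap.mulLeft Ω A + LinearMap.mulRight Ω (-A) = Pool.Agent.Z15.E.ad A := by
    ext x
    simp [Pool.Agent.Z15.E.ad, sub_eq_add_neg]
  rw [h6] at h5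
  exact h5

end

end Pool.Agent.Z15.E
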